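import Mathlib

/-!
# The exponent of the polynomial factor in the count of tiles is at least `d(d-1)/2`
-/

set_option autoImplicit false

open Filter Asymptotics Topology

namespace Pool.Agent.Results.MP_13da68_co.ExponentLower

/-- The finite set `S ⊆ ℤ^d` tiles `ℤ^d` by translations: for some `T ⊆ ℤ^d` every `x ∈ ℤ^d` can be
written in exactly one way as `x = s + t` with `s ∈ S`, `t ∈ T`. -/
def Tiles {d : ℕ} (S : Finset (Fin d → ℤ)) : Prop :=
  ∃ T : Set (Fin d → ℤ), ∀ x : Fin d → ℤ,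
    ∃! p : (Fin d → ℤ) × (Fin d → ℤ), p.1 ∈ S ∧ p.2 ∈ T ∧ x = p.1 + p.2

/-- the cube `[n]^d = {1, …, n}^d` -/
noncomputable def cube (d n : ℕ) : Finset (Fin d → ℤ) := Fintype.piFinset fun _ => Finset.Icc 1 (n : ℤ)

open Classical in
/-- `t_{n,d}`: the number of subsets `S` of `[n]^d` that tile `ℤ^d` by translations -/
noncomputable def t (n d : ℕ) : ℕ := ((cube d n).powerset.filter fun S => Tiles S).card

theorem mem_cube {d n : ℕ} {m : Fin d → ℤ} : m ∈ cube d n ↔ ∀ i, 1 ≤ m i ∧ m i ≤ n := by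
  simp [cube, Fintype.mem_piFinset]

theorem card_cube (d n : ℕ) : (cube d n).card = n ^ d := by
  unfold cube
  rw [Fintype.card_piFinset]
  simp

section lattice

variable {m : ℕ}

/-- the first `m` coordinates -/
def ini (y : Fin (m + 1) → ℤ) : Fin m → ℤ := fun i => y i.castSucc

/-- adding a last coordinate -/
def sn (x : Fin m → ℤ) (z : ℤ) : Fin (m + 1) → ℤ := Fin.snoc (α := fun _ => ℤ) x z

@[simp] theorem ini_sn (x : Fin m → ℤ) (z : ℤ) : ini (sn x z) = x := by
  funext i; simp [ini, sn]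

@[simp] theorem sn_last (x : Fin m → ℤ) (z : ℤ) : sn x z (Fin.last m) = z := by
  simp [sn]

theorem sn_ini (y : Fin (m + 1) → ℤ) : sn (ini y) (y (Fin.last m)) = y := by
  funext i
  refine Fin.lastCases ?_ (fun j => ?_) i
  · simp
  · have := congrFun (ini_sn (ini y) (y (Fin.last m))) j
    exact this

@[simp] theorem ini_add (x y : Fin (m + 1) → ℤ) : ini (x + y) = ini x + ini y := rfl
@[simp] theorem ini_sub (x y : Fin (m + 1) → ℤ) : ini (x - y) = ini x - ini y := rfl
@[simp] theorem ini_neg (x : Fin (m + 1) → ℤ) : ini (-x) = -ini x := rfl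
@[simp] theorem ini_zero : ini (0 : Fin (m + 1) → ℤ) = 0 := rfl

theorem mem_cube_succ {n : ℕ} {y : Fin (m + 1) → ℤ} :
    y ∈ cube (m + 1) n ↔ ini y ∈ cube m n ∧ 1 ≤ y (Fin.last m) ∧ y (Fin.last m) ≤ n := by
  rw [mem_cube, mem_cube, Fin.forall_fin_succ']
  rfl

/-- the subgroup generated by `M × 0` and `(v, a)` -/
def ext (M : AddSubgroup (Fin m → ℤ)) (v : Fin m → ℤ) (a : ℤ) : AddSubgroup (Fin (m + 1) → ℤ) where
  carrier := {y | ∃ c : ℤ, y (Fin.last m) = c * a ∧ ini y - c • v ∈ M}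
  add_mem' := by
    rintro x y ⟨c, h1, h2⟩ ⟨c', h3, h4⟩
    refine ⟨c + c', ?_, ?_⟩
    · simp only [Pi.add_apply, h1, h3]; ring
    · have := M.add_mem h2 h4
      rw [ini_add]
      have e : ini x + ini y - (c + c') • v = ini x - c • v + (ini y - c' • v) := by
        rw [add_smul]; abel
      rw [e]; exact this
  zero_mem' := ⟨0, by simp, by simp⟩
  neg_mem' := by
    rintro x ⟨c, h1, h2⟩
    refine ⟨-c, ?_, ?_⟩
    · simp only [Pi.neg_apply, h1]; ring
    · have := M.neg_mem h2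
      rw [ini_neg]
      have e : -ini x - (-c) • v = -(ini x - c • v) := by
        rw [neg_smul]; abel
      rw [e]; exact this

theorem mem_ext {M : AddSubgroup (Fin m → ℤ)} {v : Fin m → ℤ} {a : ℤ} {y : Fin (m + 1) → ℤ} :
    y ∈ ext M v a ↔ ∃ c : ℤ, y (Fin.last m) = c * a ∧ ini y - c • v ∈ M := Iff.rfl

theorem div_uniq {a c c' z z' : ℤ} (hz : 1 ≤ z) (hz' : z ≤ a) (hw : 1 ≤ z')
    (hw' : z' ≤ a) (h : c * a + z = c' * a + z') : c = c' ∧ z = z' := by
  have hc : c = c' := by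
    have h1 : c < c' + 1 := by
      by_contra hcon
      push Not at hcon
      nlinarith
    have h2 : c' < c + 1 := by
      by_contra hcon
      push Not at hcon
      nlinarith
    omega
  subst hc
  exact ⟨rfl, by linarith⟩

theorem div_ex (a : ℤ) (ha : 0 < a) (x : ℤ) : ∃ c z : ℤ, x = c * a + z ∧ 1 ≤ z ∧ z ≤ a := by
  refine ⟨(x - 1) / a, (x - 1) % a + 1, ?_, ?_, ?_⟩
  · have := Int.mul_ediv_add_emod (x - 1) a
    linarith [mul_comm a ((x - 1) / a)]
  · have := Int.emod_nonneg (x - 1) ha.ne'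
    linarith
  · have := Int.emod_lt_of_pos (x - 1) ha
    omega

/-- the cube is a system of representatives of the cosets of `M` -/
def Fund (n : ℕ) (M : AddSubgroup (Fin m → ℤ)) : Prop :=
  (∀ x : Fin m → ℤ, ∃ y ∈ cube m n, x - y ∈ M) ∧
  ∀ y ∈ cube m n, ∀ y' ∈ cube m n, y - y' ∈ M → y = y'

theorem fund_ext {n : ℕ} (hn : 0 < n) {M : AddSubgroup (Fin m → ℤ)} (hM : Fund n M) (v : Fin m → ℤ) :
    Fund n (ext M v n) := by
  have hn' : (0 : ℤ) < n := by exact_mod_cast hn
  refine ⟨fun x => ?_, fun y hy y' hy' h => ?_⟩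
  · obtain ⟨c, z, h1, h2, h3⟩ := div_ex n hn' (x (Fin.last m))
    obtain ⟨k, hk, hk'⟩ := hM.1 (ini x - c • v)
    refine ⟨sn k z, ?_, ?_⟩
    · rw [mem_cube_succ]; simp [hk, h2, h3]
    · rw [mem_ext]
      refine ⟨c, ?_, ?_⟩
      · simp only [Pi.sub_apply, sn_last, h1]; ring
      · rw [ini_sub, ini_sn]
        have e : ini x - k - c • v = ini x - c • v - k := by abel
        rw [e]; exact hk'
  · rw [mem_ext] at h
    obtain ⟨c, h1, h2⟩ := h
    rw [mem_cube_succ] at hy hy'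
    have h3 : 0 * (n : ℤ) + y (Fin.last m) = c * n + y' (Fin.last m) := by
      simp only [Pi.sub_apply] at h1
      linarith
    obtain ⟨h4, h5⟩ := div_uniq hy.2.1 hy.2.2 hy'.2.1 hy'.2.2 h3
    subst h4
    rw [zero_smul, sub_zero, ini_sub] at h2
    have h6 := hM.2 _ hy.1 _ hy'.1 h2
    rw [← sn_ini y, ← sn_ini y', h5, h6]

/-- parameters of the lattices -/
def Par (n : ℕ) : ℕ → Type
  | 0 => Unit
  | m + 1 => Par n m × (Fin m → Fin n)

/-- the lattices -/
def lat (n : ℕ) : (m : ℕ) → Par n m → AddSubgroup (Fin m → ℤ)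
  | 0, _ => ⊤
  | m + 1, p => ext (lat n m p.1) (fun i => ((p.2 i : ℕ) : ℤ)) n

noncomputable instance instFintypePar (n : ℕ) : (m : ℕ) → Fintype (Par n m)
  | 0 => inferInstanceAs (Fintype Unit)
  | m + 1 =>
    haveI := instFintypePar n m
    inferInstanceAs (Fintype (Par n m × (Fin m → Fin n)))

theorem card_par (n : ℕ) : ∀ m, Fintype.card (Par n m) = n ^ (m * (m - 1) / 2)
  | 0 => by
    have : Fintype.card (Par n 0) = Fintype.card Unit := Fintype.card_congr (Equiv.refl _)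
    rw [this]; simp
  | m + 1 => by
    have h1 : Fintype.card (Par n (m + 1)) = Fintype.card (Par n m × (Fin m → Fin n)) :=
      Fintype.card_congr (Equiv.refl _)
    rw [h1, Fintype.card_prod, card_par n m]
    simp only [Fintype.card_pi, Fintype.card_fin, Finset.prod_const, Finset.card_univ]
    rw [← pow_add]
    congr 1
    rw [← Nat.triangle_succ]

theorem fund_lat {n : ℕ} (hn : 0 < n) : ∀ (m : ℕ) (p : Par n m), Fund n (lat n m p)
  | 0, _ => ⟨fun _ => ⟨fun i => i.elim0, mem_cube.2 fun i => i.elim0, AddSubgroup.mem_top _⟩,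
      fun _ _ _ _ _ => funext fun i => i.elim0⟩
  | m + 1, p => fund_ext hn (fund_lat hn m p.1) _

/-- the lattice is determined by its action on the cube -/
theorem sep {n : ℕ} (hn : 0 < n) : ∀ (m : ℕ) (p p' : Par n m) (v : Fin m → ℤ)
    (_ : ∀ i, 1 ≤ v i ∧ v i ≤ n - 1)
    (_ : ∀ x ∈ cube m n, ∀ y ∈ cube m n, x + v - y ∈ lat n m p ↔ x + v - y ∈ lat n m p'), p = p'
  | 0, _, _, _, _, _ => rfl
  | m + 1, p, p', v, hv, h => by
    obtain ⟨p1, w⟩ := p
    obtain ⟨p1', w'⟩ := p'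
    have hn' : (0 : ℤ) < n := by exact_mod_cast hn
    have hvl := hv (Fin.last m)
    have hkey : ∀ (q : Par n m) (w : Fin m → Fin n) (x : Fin m → ℤ),
        ∀ c : ℤ, (sn x (c * n) ∈ lat n (m + 1) (q, w) ↔
          x - c • (fun i => ((w i : ℕ) : ℤ)) ∈ lat n m q) := by
      intro q w x c
      show sn x (c * n) ∈ ext (lat n m q) (fun i => ((w i : ℕ) : ℤ)) n ↔ _
      rw [mem_ext]
      constructor
      · rintro ⟨c', h1, h2⟩
        rw [sn_last] at h1
        have : c = c' := by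
          have := mul_right_cancel₀ hn'.ne' h1
          exact this
        subst this
        rw [ini_sn] at h2
        exact h2
      · intro h1
        exact ⟨c, by simp, by rw [ini_sn]; exact h1⟩
    have h1 : p1 = p1' := by
      refine sep hn m p1 p1' (ini v) (fun i => hv _) ?_
      intro x hx y hy
      have h2 := h (sn x 1) (by rw [mem_cube_succ]; simp only [ini_sn, sn_last]; exact ⟨hx, by omega, by omega⟩)
        (sn y (1 + v (Fin.last m))) (by rw [mem_cube_succ]; simp only [ini_sn, sn_last]; exact ⟨hy, by omega, by omega⟩)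
      have e : sn x 1 + v - sn y (1 + v (Fin.last m)) = sn (x + ini v - y) (0 * n) := by
        rw [← sn_ini (sn x 1 + v - sn y (1 + v (Fin.last m)))]
        congr 1
        · simp
        · simp only [Pi.sub_apply, Pi.add_apply, sn_last]; ring
      rw [e, hkey, hkey] at h2
      simpa using h2
    subst h1
    have h3 : w = w' := by
      set W : Fin m → ℤ := fun i => ((w i : ℕ) : ℤ) with hW
      set W' : Fin m → ℤ := fun i => ((w' i : ℕ) : ℤ) with hW'
      have hF := fund_lat hn m p1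
      obtain ⟨y, hy, hy'⟩ := hF.1 ((fun _ => 1) + ini v - W)
      have h2 := h (sn (fun _ => 1) (n - v (Fin.last m) + 1)) (by
          rw [mem_cube_succ]; simp only [ini_sn, sn_last]
          exact ⟨mem_cube.2 fun i => ⟨le_refl _, by omega⟩, by omega, by omega⟩)
        (sn y 1) (by rw [mem_cube_succ]; simp only [ini_sn, sn_last]; exact ⟨hy, by omega, by omega⟩)
      have e : sn (fun _ => 1) (n - v (Fin.last m) + 1) + v - sn y 1
          = sn ((fun _ => 1) + ini v - y) (1 * n) := by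
        rw [← sn_ini (sn (fun _ => 1) (n - v (Fin.last m) + 1) + v - sn y 1)]
        congr 1
        · simp
        · simp only [Pi.sub_apply, Pi.add_apply, sn_last]; ring
      rw [e, hkey, hkey] at h2
      have h4 : (fun _ => 1) + ini v - y - (1 : ℤ) • W ∈ lat n m p1 := by
        have e2 : (fun _ => 1) + ini v - y - (1 : ℤ) • W = (fun _ => 1) + ini v - W - y := by
          rw [one_smul]; abel
        rw [e2]; exact hy'
      have h5 := h2.1 h4
      have h6 : (fun _ => 1) + W - ((fun _ => 1) + W') ∈ lat n m p1 := by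
        have e3 : (fun _ => 1) + W - ((fun _ => 1) + W')
            = ((fun _ => 1) + ini v - y - (1 : ℤ) • W') - ((fun _ => 1) + ini v - y - (1 : ℤ) • W) := by
          rw [one_smul, one_smul]; abel
        rw [e3]
        exact (lat n m p1).sub_mem h5 h4
      have h7 := hF.2 _ (mem_cube.2 fun i => by
          have := (w i).2
          simp only [Pi.add_apply, hW]; omega) _ (mem_cube.2 fun i => by
          have := (w' i).2
          simp only [Pi.add_apply, hW']; omega) h6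
      funext i
      have h8 := congrFun h7 i
      simp only [Pi.add_apply, hW, hW'] at h8
      apply Fin.ext
      omega
    rw [h3]

end lattice

section counting

theorem card_forbid {K : Type*} [Fintype K] [DecidableEq K] (x r : K) (hxr : r ≠ x) :
    9 * (Finset.univ.filter fun g : K → Fin 3 => ¬ (g x = 0 ∧ g r = 1)).card ≤ 8 * 3 ^ Fintype.card K := by
  have hall : (Finset.univ : Finset (K → Fin 3)).card = 3 ^ Fintype.card K := by
    rw [Finset.card_univ, Fintype.card_fun, Fintype.card_fin]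
  have h1 := Finset.card_filter_add_card_filter_not (s := (Finset.univ : Finset (K → Fin 3)))
    (fun g => g x = 0 ∧ g r = 1)
  rw [hall] at h1
  have h2 : (Finset.univ : Finset (K → Fin 3)).card
      ≤ ((Finset.univ : Finset (Fin 3 × Fin 3)) ×ˢ
        (Finset.univ.filter fun g : K → Fin 3 => g x = 0 ∧ g r = 1)).card := by
    refine Finset.card_le_card_of_injOn
      (fun g => ((g x, g r), Function.update (Function.update g x 0) r 1)) ?_ ?_
    · intro g _
      simp only [Finset.coe_product, Finset.coe_univ, Set.mem_prod, Set.mem_univ, true_and,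
        Finset.coe_filter, Finset.mem_univ, Set.mem_ofPred_eq, Function.update_self, and_true]
      rw [Function.update_of_ne hxr.symm, Function.update_self]
    · intro g _ g' _ h
      simp only [Prod.mk.injEq] at h
      obtain ⟨⟨h3, h4⟩, h5⟩ := h
      funext y
      by_cases hy : y = x
      · rw [hy]; exact h3
      by_cases hy' : y = r
      · rw [hy']; exact h4
      have h6 := congrFun h5 y
      rwa [Function.update_of_ne hy', Function.update_of_ne hy, Function.update_of_ne hy',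
        Function.update_of_ne hy] at h6
  rw [hall, Finset.card_product] at h2
  simp only [Finset.card_univ, Fintype.card_prod, Fintype.card_fin] at h2
  omega

theorem card_forbid_pow {K : Type*} [Fintype K] [DecidableEq K] (k : ℕ) (x r : K) (hxr : r ≠ x)
    (F : Finset (Fin k → K → Fin 3)) (hF : ∀ f ∈ F, ∀ z, ¬ (f z x = 0 ∧ f z r = 1)) :
    9 ^ k * F.card ≤ 8 ^ k * (3 ^ Fintype.card K) ^ k := by
  have h1 : F ⊆ Fintype.piFinset fun _ : Fin k => Finset.univ.filter fun g : K → Fin 3 =>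
      ¬ (g x = 0 ∧ g r = 1) := by
    intro f hf
    rw [Fintype.mem_piFinset]
    intro z
    rw [Finset.mem_filter]
    exact ⟨Finset.mem_univ _, hF f hf z⟩
  have h2 := Finset.card_le_card h1
  rw [Fintype.card_piFinset, Finset.prod_const, Finset.card_univ, Fintype.card_fin] at h2
  calc 9 ^ k * F.card ≤ 9 ^ k * (Finset.univ.filter fun g : K → Fin 3 => ¬ (g x = 0 ∧ g r = 1)).card ^ k :=
        Nat.mul_le_mul_left _ h2
    _ = (9 * (Finset.univ.filter fun g : K → Fin 3 => ¬ (g x = 0 ∧ g r = 1)).card) ^ k := by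
        rw [mul_pow]
    _ ≤ (8 * 3 ^ Fintype.card K) ^ k := Nat.pow_le_pow_left (card_forbid x r hxr) k
    _ = _ := by rw [mul_pow]

/-- abstract counting: families that are pairwise almost disjoint -/
theorem count_abs {A U S : Type*} [Fintype A] [DecidableEq A] [Fintype U] [DecidableEq U]
    [DecidableEq S] (Φ : A → U → S) (hinj : ∀ a, Function.Injective (Φ a)) (p q : ℕ) (hq : 0 < q)
    (hov : ∀ a a', a ≠ a' → ∀ F : Finset U, (∀ f ∈ F, ∃ f', Φ a f = Φ a' f') →
      q * F.card ≤ p * Fintype.card U)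
    (hsmall : 2 * Fintype.card A * p ≤ q) (R : Finset S) (hR : ∀ a f, Φ a f ∈ R) :
    Fintype.card A * Fintype.card U ≤ 2 * R.card := by
  classical
  -- bad pairs
  set bad : Finset (A × U) := Finset.univ.filter fun x => ∃ a', a' ≠ x.1 ∧ ∃ f', Φ x.1 x.2 = Φ a' f' with hbad
  set good : Finset (A × U) := Finset.univ.filter fun x => ¬ ∃ a', a' ≠ x.1 ∧ ∃ f', Φ x.1 x.2 = Φ a' f' with hgood
  have h1 : bad.card + good.card = Fintype.card A * Fintype.card U := by
    rw [hbad, hgood, Finset.card_filter_add_card_filter_not, Finset.card_univ, Fintype.card_prod]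
  have h2 : good.card ≤ R.card := by
    refine Finset.card_le_card_of_injOn (fun x => Φ x.1 x.2) (fun x _ => hR _ _) ?_
    rintro ⟨a, f⟩ hx ⟨a', f'⟩ hx' h
    have h : Φ a f = Φ a' f' := h
    have haa : a = a' := by
      by_contra hne
      exact (Finset.mem_filter.1 hx).2 ⟨a', fun e => hne e.symm, f', h⟩
    subst haa
    rw [hinj a h]
  have h3 : q * bad.card ≤ Fintype.card A * (Fintype.card A * (p * Fintype.card U)) := by
    have h4 : bad ⊆ (Finset.univ : Finset A).biUnion fun a =>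
        ((Finset.univ.filter fun a' => a' ≠ a)).biUnion fun a' =>
          (Finset.univ.filter fun f => ∃ f', Φ a f = Φ a' f').image fun f => (a, f) := by
      rintro ⟨a, f⟩ hx
      obtain ⟨a', h5, h6⟩ := (Finset.mem_filter.1 hx).2
      rw [Finset.mem_biUnion]
      refine ⟨a, Finset.mem_univ _, ?_⟩
      rw [Finset.mem_biUnion]
      refine ⟨a', Finset.mem_filter.2 ⟨Finset.mem_univ _, h5⟩, ?_⟩
      rw [Finset.mem_image]
      exact ⟨f, Finset.mem_filter.2 ⟨Finset.mem_univ _, h6⟩, rfl⟩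
    calc q * bad.card ≤ q * ∑ a : A, ∑ a' ∈ Finset.univ.filter (fun a' => a' ≠ a),
          (Finset.univ.filter fun f => ∃ f', Φ a f = Φ a' f').card := by
          apply Nat.mul_le_mul_left
          refine (Finset.card_le_card h4).trans (Finset.card_biUnion_le.trans ?_)
          apply Finset.sum_le_sum
          intro a _
          refine Finset.card_biUnion_le.trans ?_
          apply Finset.sum_le_sum
          intro a' _
          exact Finset.card_image_le
      _ = ∑ a : A, ∑ a' ∈ Finset.univ.filter (fun a' => a' ≠ a),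
          q * (Finset.univ.filter fun f => ∃ f', Φ a f = Φ a' f').card := by
          rw [Finset.mul_sum]
          apply Finset.sum_congr rfl
          intro a _
          rw [Finset.mul_sum]
      _ ≤ ∑ a : A, ∑ a' ∈ Finset.univ.filter (fun a' => a' ≠ a), p * Fintype.card U := by
          apply Finset.sum_le_sum
          intro a _
          apply Finset.sum_le_sum
          intro a' ha'
          exact hov a a' (fun e => (Finset.mem_filter.1 ha').2 e.symm) _
            (fun f hf => (Finset.mem_filter.1 hf).2)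
      _ ≤ ∑ a : A, Fintype.card A * (p * Fintype.card U) := by
          apply Finset.sum_le_sum
          intro a _
          rw [Finset.sum_const, smul_eq_mul]
          apply Nat.mul_le_mul_right
          exact Finset.card_le_univ _
      _ = _ := by rw [Finset.sum_const, smul_eq_mul, Finset.card_univ]
  have h5 : 2 * (q * bad.card) ≤ q * (Fintype.card A * Fintype.card U) := by
    calc 2 * (q * bad.card) ≤ 2 * (Fintype.card A * (Fintype.card A * (p * Fintype.card U))) :=
          Nat.mul_le_mul_left _ h3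
      _ = (2 * Fintype.card A * p) * (Fintype.card A * Fintype.card U) := by ring
      _ ≤ q * (Fintype.card A * Fintype.card U) := Nat.mul_le_mul_right _ hsmall
  have h6 : 2 * bad.card ≤ Fintype.card A * Fintype.card U := by
    apply Nat.le_of_mul_le_mul_left _ hq
    calc q * (2 * bad.card) = 2 * (q * bad.card) := by ring
      _ ≤ _ := h5
  omega

end counting

section tiles

variable {m : ℕ}

open Classical in
/-- the sets `S`: one representative in each coset, chosen by `f` -/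
noncomputable def tl (k : ℕ) (M : AddSubgroup (Fin m → ℤ)) (v : Fin m → ℤ)
    (f : Fin k → (cube m (3 * k)) → Fin 3) : Finset (Fin (m + 1) → ℤ) :=
  (cube (m + 1) (3 * k)).filter fun p => ∃ (z : Fin k) (x : cube m (3 * k)),
    p (Fin.last m) = ((f z x : ℕ) : ℤ) * k + ((z : ℕ) + 1 : ℤ) ∧
    ini p - ((f z x : ℕ) : ℤ) • v - x ∈ M

open Classical in
theorem mem_tl {k : ℕ} {M : AddSubgroup (Fin m → ℤ)} {v : Fin m → ℤ}
    {f : Fin k → (cube m (3 * k)) → Fin 3} {p : Fin (m + 1) → ℤ} :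
    p ∈ tl k M v f ↔ p ∈ cube (m + 1) (3 * k) ∧ ∃ (z : Fin k) (x : cube m (3 * k)),
      p (Fin.last m) = ((f z x : ℕ) : ℤ) * k + ((z : ℕ) + 1 : ℤ) ∧
      ini p - ((f z x : ℕ) : ℤ) • v - x ∈ M := by
  unfold tl
  exact Finset.mem_filter

theorem mem_tl_iff {k : ℕ} {M : AddSubgroup (Fin m → ℤ)} (hM : Fund (3 * k) M) {v : Fin m → ℤ}
    {f : Fin k → (cube m (3 * k)) → Fin 3} (z : Fin k) (x : cube m (3 * k)) (j : Fin 3)
    {y : Fin m → ℤ} (hy : y ∈ cube m (3 * k)) (hyx : y - ((j : ℕ) : ℤ) • v - x ∈ M) :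
    sn y (((j : ℕ) : ℤ) * k + ((z : ℕ) + 1 : ℤ)) ∈ tl k M v f ↔ f z x = j := by
  have hz := z.2
  have hj := j.2
  rw [mem_tl]
  constructor
  · rintro ⟨-, z', x', h1, h2⟩
    have hz' := z'.2
    rw [sn_last] at h1
    obtain ⟨h3, h4⟩ := div_uniq (a := k) (by omega) (by omega) (by omega) (by omega) h1
    have h5 : z = z' := Fin.ext (by omega)
    have h6 : f z' x' = j := Fin.ext (by omega)
    subst h5
    rw [h6, ini_sn] at h2
    have h7 : (x : Fin m → ℤ) - x' ∈ M := by
      have e : (x : Fin m → ℤ) - x' = (y - ((j : ℕ) : ℤ) • v - x') - (y - ((j : ℕ) : ℤ) • v - x) := by abel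
      rw [e]
      exact M.sub_mem h2 hyx
    have h8 : x = x' := Subtype.ext (hM.2 _ x.2 _ x'.2 h7)
    rw [h8]; exact h6
  · intro h
    refine ⟨?_, z, x, ?_, ?_⟩
    · rw [mem_cube_succ, ini_sn, sn_last]
      refine ⟨hy, ?_, ?_⟩
      · have h0 : (0 : ℤ) ≤ ((j : ℕ) : ℤ) * k := by positivity
        have h0' : (0 : ℤ) ≤ ((z : ℕ) : ℤ) := by positivity
        linarith
      · push_cast
        have h1 : ((j : ℕ) : ℤ) ≤ 2 := by omega
        nlinarith
    · rw [sn_last, h]
    · rw [ini_sn, h]; exact hyx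

theorem tiles_tl {k : ℕ} (hk : 0 < k) {M : AddSubgroup (Fin m → ℤ)} (hM : Fund (3 * k) M) (v : Fin m → ℤ)
    (f : Fin k → (cube m (3 * k)) → Fin 3) : Tiles (tl k M v f) := by
  have hk' : (0 : ℤ) < k := by exact_mod_cast hk
  refine ⟨ext M v k, fun p => ?_⟩
  obtain ⟨c, z, h1, h2, h3⟩ := div_ex k hk' (p (Fin.last m))
  obtain ⟨x, hx, hx'⟩ := hM.1 (ini p - c • v)
  let zz : Fin k := ⟨(z - 1).toNat, by omega⟩
  have hzz : ((zz : ℕ) : ℤ) + 1 = z := by
    simp only [zz]; omega
  let xx : cube m (3 * k) := ⟨x, hx⟩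
  obtain ⟨y, hy, hy'⟩ := hM.1 (x + ((f zz xx : ℕ) : ℤ) • v)
  have hy2 : y - ((f zz xx : ℕ) : ℤ) • v - x ∈ M := by
    have e : y - ((f zz xx : ℕ) : ℤ) • v - x = -(x + ((f zz xx : ℕ) : ℤ) • v - y) := by abel
    rw [e]; exact M.neg_mem hy'
  have hs : sn y (((f zz xx : ℕ) : ℤ) * k + ((zz : ℕ) + 1 : ℤ)) ∈ tl k M v f :=
    (mem_tl_iff hM zz xx (f zz xx) hy hy2).2 rfl
  set s := sn y (((f zz xx : ℕ) : ℤ) * k + ((zz : ℕ) + 1 : ℤ)) with hsd
  refine ⟨(s, p - s), ⟨hs, ?_, by simp⟩, ?_⟩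
  · show p - s ∈ ext M v k
    rw [mem_ext]
    refine ⟨c - ((f zz xx : ℕ) : ℤ), ?_, ?_⟩
    · simp only [Pi.sub_apply, hsd, sn_last, hzz, h1]; ring
    · rw [ini_sub, hsd, ini_sn]
      have e : ini p - y - (c - ((f zz xx : ℕ) : ℤ)) • v
          = (ini p - c • v - x) + (x + ((f zz xx : ℕ) : ℤ) • v - y) := by
        rw [sub_smul]; abel
      rw [e]
      exact M.add_mem hx' hy'
  · rintro ⟨s', u'⟩ ⟨h4, h5, h6⟩
    have h4 : s' ∈ tl k M v f := h4
    have h5 : u' ∈ ext M v k := h5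
    have h6 : p = s' + u' := h6
    obtain ⟨h7, z', x', h8, h9⟩ := mem_tl.1 h4
    obtain ⟨c', h10, h11⟩ := mem_ext.1 h5
    have hz' := z'.2
    have h12 : (((f z' x' : ℕ) : ℤ) + c') * k + (((z' : ℕ) : ℤ) + 1) = c * k + z := by
      rw [← h1, h6, Pi.add_apply, h8, h10]; ring
    obtain ⟨h13, h14⟩ := div_uniq (a := k) (by omega) (by omega) (by omega) (by omega) h12
    have h15 : z' = zz := Fin.ext (by simp only [zz]; omega)
    have h16 : (x : Fin m → ℤ) - x' ∈ M := by
      have e : (x : Fin m → ℤ) - x' = (ini s' - ((f z' x' : ℕ) : ℤ) • v - x') + (ini u' - c' • v)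
          - (ini p - c • v - x) := by
        rw [← h13, h6, ini_add, add_smul]; abel
      rw [e]
      exact M.sub_mem (M.add_mem h9 h11) hx'
    have h17 : xx = x' := Subtype.ext (hM.2 _ hx _ x'.2 h16)
    have h18 : s' = s := by
      rw [← h17, h15] at h8 h9
      rw [← sn_ini s', hsd, h8]
      congr 1
      apply hM.2 _ (mem_cube_succ.1 h7).1 _ hy
      have e : ini s' - y = (ini s' - ((f zz xx : ℕ) : ℤ) • v - x) + (x + ((f zz xx : ℕ) : ℤ) • v - y) := by
        abel
      rw [e]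
      exact M.add_mem h9 hy'
    have h19 : u' = p - s' := by rw [h6]; abel
    rw [h19, h18]

theorem tl_inj {k : ℕ} {M : AddSubgroup (Fin m → ℤ)} (hM : Fund (3 * k) M) (v : Fin m → ℤ)
    {f f' : Fin k → (cube m (3 * k)) → Fin 3} (h : tl k M v f = tl k M v f') : f = f' := by
  funext z x
  obtain ⟨y, hy, hy'⟩ := hM.1 (x + ((f z x : ℕ) : ℤ) • v)
  have hy2 : y - ((f z x : ℕ) : ℤ) • v - x ∈ M := by
    have e : y - ((f z x : ℕ) : ℤ) • v - x = -(x + ((f z x : ℕ) : ℤ) • v - y) := by abel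
    rw [e]; exact M.neg_mem hy'
  have h1 := (mem_tl_iff hM (f := f) z x (f z x) hy hy2).2 rfl
  rw [h] at h1
  exact ((mem_tl_iff hM (f := f') z x (f z x) hy hy2).1 h1).symm

/-- for two different lattices there are `x` and `r` such that a common tile cannot have
`f z x = 0` and `f z r = 1`. -/
theorem clash {k : ℕ} {M M' : AddSubgroup (Fin m → ℤ)} (hM : Fund (3 * k) M)
    (hM' : Fund (3 * k) M') (v v' : Fin m → ℤ) (x q : cube m (3 * k))
    (h1 : (x : Fin m → ℤ) + v - q ∉ M) (h2 : (x : Fin m → ℤ) + v' - q ∈ M') :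
    ∃ r : cube m (3 * k), r ≠ x ∧ ∀ f f', tl k M v f = tl k M' v' f' →
      ∀ z, ¬ (f z x = 0 ∧ f z r = 1) := by
  obtain ⟨r, hr, hr'⟩ := hM.1 (q - v)
  refine ⟨⟨r, hr⟩, ?_, ?_⟩
  · intro h
    have h3 : r = x := congrArg Subtype.val h
    apply h1
    have e : (x : Fin m → ℤ) + v - q = -(q - v - r) := by rw [h3]; abel
    rw [e]; exact M.neg_mem hr'
  · rintro f f' hf z ⟨h3, h4⟩
    have h5 := (mem_tl_iff hM (f := f) z x 0 (y := x) (v := v) x.2 (by simp)).2 h3
    have h6 := (mem_tl_iff hM (f := f) z ⟨r, hr⟩ 1 (y := q) (v := v) q.2 (by simpa using hr')).2 h4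
    rw [hf] at h5 h6
    have h7 := (mem_tl_iff hM' (f := f') z x 0 (y := x) (v := v') x.2 (by simp)).1 h5
    have h8 := (mem_tl_iff hM' (f := f') z x 1 (y := q) (v := v') q.2 (by
      have e : (q : Fin m → ℤ) - (((1 : Fin 3) : ℕ) : ℤ) • v' - x = -((x : Fin m → ℤ) + v' - q) := by
        simp only [Fin.val_one, Nat.cast_one, one_smul]; abel
      rw [e]; exact M'.neg_mem h2)).1 h6
    rw [h7] at h8
    exact absurd h8 (by decide)

/-- the number of tiles is at least half the number of pairs (lattice, choice) -/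
theorem lower (m k : ℕ) (hk : 0 < k)
    (hsmall : 2 * ((3 * k) ^ (m * (m - 1) / 2) * (3 * k - 1) ^ m) * 8 ^ k ≤ 9 ^ k) :
    (3 * k) ^ (m * (m - 1) / 2) * (3 * k - 1) ^ m * 3 ^ ((3 * k) ^ m * k) ≤ 2 * t (3 * k) (m + 1) := by
  classical
  have hn : 0 < 3 * k := by omega
  let A := Par (3 * k) m × (Fin m → Fin (3 * k - 1))
  let U := Fin k → (cube m (3 * k)) → Fin 3
  let M : A → AddSubgroup (Fin m → ℤ) := fun a => lat (3 * k) m a.1
  let v : A → Fin m → ℤ := fun a i => ((a.2 i : ℕ) : ℤ) + 1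
  let Φ : A → U → Finset (Fin (m + 1) → ℤ) := fun a f => tl k (M a) (v a) f
  have hM : ∀ a, Fund (3 * k) (M a) := fun a => fund_lat hn m a.1
  have hA : Fintype.card A = (3 * k) ^ (m * (m - 1) / 2) * (3 * k - 1) ^ m := by
    show Fintype.card (Par (3 * k) m × (Fin m → Fin (3 * k - 1))) = _
    rw [Fintype.card_prod, card_par]
    simp
  have hK : Fintype.card (cube m (3 * k)) = (3 * k) ^ m := by
    rw [Fintype.card_coe, card_cube]
  have hU : Fintype.card U = (3 ^ (3 * k) ^ m) ^ k := by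
    show Fintype.card (Fin k → (cube m (3 * k)) → Fin 3) = _
    rw [Fintype.card_fun, Fintype.card_fun, hK]
    simp
  -- two different parameters clash
  have hclash : ∀ a a', a ≠ a' → ∃ x r : cube m (3 * k), r ≠ x ∧ ∀ f f', Φ a f = Φ a' f' →
      ∀ z, ¬ (f z x = 0 ∧ f z r = 1) := by
    intro a a' hne
    have h1 : ∃ x q : cube m (3 * k), ¬ ((x : Fin m → ℤ) + v a - q ∈ M a ↔ (x : Fin m → ℤ) + v a' - q ∈ M a') := by
      by_contra hcon
      push Not at hcon
      apply hne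
      have hin : ∀ a : A, (fun _ => 1) + v a ∈ cube m (3 * k) := by
        intro a
        rw [mem_cube]
        intro i
        have := (a.2 i).2
        simp only [Pi.add_apply, v]
        push_cast
        omega
      have hone : (fun _ => 1) ∈ cube m (3 * k) := mem_cube.2 fun i => ⟨le_refl _, by push_cast; omega⟩
      have hv : v a = v a' := by
        have h2 := (hcon ⟨_, hone⟩ ⟨_, hin a⟩).1 (by simp)
        have h3 := (hM a').2 _ (hin a') _ (hin a) h2
        exact (add_left_cancel h3).symm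
      have h4 : a.1 = a'.1 := by
        refine sep hn m a.1 a'.1 (v a) ?_ ?_
        · intro i
          have := (a.2 i).2
          simp only [v]
          push_cast
          omega
        · intro x hx y hy
          have := hcon ⟨x, hx⟩ ⟨y, hy⟩
          rw [← hv] at this
          exact this
      have h5 : a.2 = a'.2 := by
        funext i
        have h6 := congrFun hv i
        simp only [v] at h6
        apply Fin.ext
        omega
      exact Prod.ext h4 h5
    obtain ⟨x, q, hxq⟩ := h1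
    have h2 : ∃ q : cube m (3 * k), (x : Fin m → ℤ) + v a - q ∉ M a ∧ (x : Fin m → ℤ) + v a' - q ∈ M a' := by
      by_cases h3 : (x : Fin m → ℤ) + v a - q ∈ M a
      · have h4 : (x : Fin m → ℤ) + v a' - q ∉ M a' := fun h => hxq ⟨fun _ => h, fun _ => h3⟩
        obtain ⟨y, hy, hy'⟩ := (hM a').1 ((x : Fin m → ℤ) + v a')
        refine ⟨⟨y, hy⟩, ?_, hy'⟩
        intro h5
        apply h4
        have h6 : (q : Fin m → ℤ) = y := by
          apply (hM a).2 _ q.2 _ hy
          have e : (q : Fin m → ℤ) - y = ((x : Fin m → ℤ) + v a - y) - ((x : Fin m → ℤ) + v a - q) := by abel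
          rw [e]
          exact (M a).sub_mem h5 h3
        rw [h6]; exact hy'
      · refine ⟨q, h3, ?_⟩
        by_contra h4
        exact hxq ⟨fun h => absurd h h3, fun h => absurd h h4⟩
    obtain ⟨q, h3, h4⟩ := h2
    obtain ⟨r, h5, h6⟩ := clash (hM a) (hM a') (v a) (v a') x q h3 h4
    exact ⟨x, r, h5, h6⟩
  have hmain := count_abs Φ (fun a f f' h => tl_inj (hM a) (v a) h) (8 ^ k) (9 ^ k) (by positivity) (by
      intro a a' hne F hF
      obtain ⟨x, r, h1, h2⟩ := hclash a a' hne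
      have h3 := card_forbid_pow k x r h1 F (fun f hf => by
        obtain ⟨f', hf'⟩ := hF f hf
        exact h2 f f' hf')
      rw [hK] at h3
      rw [hU]
      exact h3) (by rw [hA]; exact hsmall)
      ((cube (m + 1) (3 * k)).powerset.filter fun S => Tiles S) (by
        intro a f
        rw [Finset.mem_filter, Finset.mem_powerset]
        refine ⟨?_, tiles_tl hk (hM a) (v a) f⟩
        intro p hp
        exact (mem_tl.1 hp).1)
  rw [hA, hU, ← pow_mul] at hmain
  have ht : t (3 * k) (m + 1) = ((cube (m + 1) (3 * k)).powerset.filter fun S => Tiles S).card := by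
    unfold t; congr
  rw [ht]
  exact hmain

end tiles

theorem root_pow_three_mul (v : ℕ) : ((3 : ℝ) ^ ((1 : ℝ) / 3)) ^ (3 * v) = 3 ^ v := by
  rw [pow_mul]
  congr 1
  rw [← Real.rpow_natCast, ← Real.rpow_mul (by norm_num)]
  norm_num

/-- the smallness condition holds for all large `k` -/
theorem small_eventually (m : ℕ) : ∀ᶠ k : ℕ in atTop,
    2 * ((3 * k) ^ (m * (m - 1) / 2) * (3 * k - 1) ^ m) * 8 ^ k ≤ 9 ^ k := by
  set e := m * (m - 1) / 2 + m with he
  have h1 : Tendsto (fun k : ℕ => (2 * 3 ^ e : ℝ) * ((k : ℝ) ^ e * (8 / 9 : ℝ) ^ k)) atTop (𝓝 ((2 * 3 ^ e : ℝ) * 0)) := by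
    apply Tendsto.const_mul
    exact tendsto_pow_const_mul_const_pow_of_abs_lt_one e (by rw [abs_of_pos] <;> norm_num)
  rw [mul_zero] at h1
  have h2 := h1.eventually (gt_mem_nhds (show (0 : ℝ) < 1 by norm_num))
  filter_upwards [h2] with k hk
  have h3 : 2 * ((3 * k) ^ (m * (m - 1) / 2) * (3 * k - 1) ^ m) * 8 ^ k ≤ 2 * (3 * k) ^ e * 8 ^ k := by
    apply Nat.mul_le_mul_right
    apply Nat.mul_le_mul_left
    rw [he, pow_add]
    apply Nat.mul_le_mul_left
    apply Nat.pow_le_pow_left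
    omega
  refine h3.trans ?_
  have h4 : (2 : ℝ) * (3 * k) ^ e * 8 ^ k ≤ 9 ^ k := by
    have h5 : (8 : ℝ) ^ k = (8 / 9 : ℝ) ^ k * 9 ^ k := by rw [← mul_pow]; norm_num
    rw [h5, mul_pow]
    have h6 : (0 : ℝ) < 9 ^ k := by positivity
    calc (2 : ℝ) * (3 ^ e * (k : ℝ) ^ e) * ((8 / 9 : ℝ) ^ k * 9 ^ k)
        = (2 * 3 ^ e) * ((k : ℝ) ^ e * (8 / 9 : ℝ) ^ k) * 9 ^ k := by ring
      _ ≤ 1 * 9 ^ k := by
        apply mul_le_mul_of_nonneg_right hk.le h6.le
      _ = 9 ^ k := one_mul _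
  exact_mod_cast h4

/-- explicit lower bound -/
theorem lower_real (m : ℕ) : ∀ᶠ k : ℕ in atTop,
    (1 / 2 ^ (m + 1) : ℝ) * ((3 * k : ℕ) : ℝ) ^ ((m + 1) * m / 2) *
      ((3 : ℝ) ^ ((1 : ℝ) / 3)) ^ ((3 * k) ^ (m + 1)) ≤ t (3 * k) (m + 1) := by
  filter_upwards [small_eventually m, eventually_gt_atTop 0] with k hk hk0
  have h1 := lower m k hk0 hk
  have h2 : ((3 * k) ^ (m * (m - 1) / 2) * (3 * k - 1) ^ m * 3 ^ ((3 * k) ^ m * k) : ℝ)
      ≤ 2 * t (3 * k) (m + 1) := by
    have h3 : ((3 * k - 1 : ℕ) : ℝ) = 3 * (k : ℝ) - 1 := by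
      rw [Nat.cast_sub (by omega)]; push_cast; ring
    have h4 : (((3 * k) ^ (m * (m - 1) / 2) * (3 * k - 1) ^ m * 3 ^ ((3 * k) ^ m * k) : ℕ) : ℝ)
      ≤ ((2 * t (3 * k) (m + 1) : ℕ) : ℝ) := by exact_mod_cast h1
    push_cast at h4
    rw [h3] at h4
    exact h4
  have h5 : ((3 : ℝ) ^ ((1 : ℝ) / 3)) ^ ((3 * k) ^ (m + 1)) = 3 ^ ((3 * k) ^ m * k) := by
    rw [← root_pow_three_mul]
    congr 1
    ring
  rw [h5]
  have hk1 : (1 : ℝ) ≤ k := by exact_mod_cast hk0
  have h6 : ((m + 1) * m / 2) = m * (m - 1) / 2 + m := by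
    rw [← Nat.triangle_succ]
    simp
  rw [h6, pow_add ((3 * k : ℕ) : ℝ)]
  have h7 : ((3 * k : ℕ) : ℝ) ^ m ≤ 2 ^ m * (3 * k - 1) ^ m := by
    rw [← mul_pow]
    apply pow_le_pow_left₀ (by positivity)
    push_cast
    linarith
  have h8 : (1 / 2 ^ (m + 1) : ℝ) * ((((3 * k : ℕ) : ℝ)) ^ (m * (m - 1) / 2) * ((3 * k : ℕ) : ℝ) ^ m)
      ≤ 1 / 2 * ((((3 * k : ℕ) : ℝ)) ^ (m * (m - 1) / 2) * (3 * k - 1) ^ m) := by
    calc (1 / 2 ^ (m + 1) : ℝ) * ((((3 * k : ℕ) : ℝ)) ^ (m * (m - 1) / 2) * ((3 * k : ℕ) : ℝ) ^ m)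
        ≤ (1 / 2 ^ (m + 1) : ℝ) * ((((3 * k : ℕ) : ℝ)) ^ (m * (m - 1) / 2) * (2 ^ m * (3 * k - 1) ^ m)) := by
          apply mul_le_mul_of_nonneg_left _ (by positivity)
          apply mul_le_mul_of_nonneg_left h7 (by positivity)
      _ = _ := by
          rw [pow_succ]
          field_simp
  have h9 : (0 : ℝ) < 3 ^ ((3 * k) ^ m * k) := by positivity
  calc _ ≤ (1 / 2 * ((((3 * k : ℕ) : ℝ)) ^ (m * (m - 1) / 2) * (3 * k - 1) ^ m)) * 3 ^ ((3 * k) ^ m * k) :=
        mul_le_mul_of_nonneg_right h8 h9.le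
    _ = 1 / 2 * ((3 * k) ^ (m * (m - 1) / 2) * (3 * k - 1) ^ m * 3 ^ ((3 * k) ^ m * k)) := by
        push_cast; ring
    _ ≤ 1 / 2 * (2 * t (3 * k) (m + 1)) := by
        apply mul_le_mul_of_nonneg_left h2 (by norm_num)
    _ = _ := by ring

/-- **Theorem (answer to Q2: no).** For every `d ≥ 1` and every real `C < d(d-1)/2` one does not
have `t_{n,d} = O(n^C (3^(1/3))^(n^d))`; in particular `C = d - 1` fails for every `d ≥ 3`. -/
theorem result (d : ℕ) (hd : 1 ≤ d) (C : ℝ) (hC : C < (d : ℝ) * (d - 1) / 2) :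
    ¬ (fun n : ℕ => (t n d : ℝ)) =O[atTop]
      fun n : ℕ => (n : ℝ) ^ C * ((3 : ℝ) ^ ((1 : ℝ) / 3)) ^ (n ^ d) := by
  obtain ⟨m, rfl⟩ : ∃ m, d = m + 1 := ⟨d - 1, by omega⟩
  intro h
  obtain ⟨K, hK⟩ := h.bound
  have h3 : Tendsto (fun k : ℕ => 3 * k) atTop atTop := tendsto_id.const_mul_atTop' (by norm_num)
  have h1 := h3.eventually hK
  have hdd : ((((m + 1) * m / 2 : ℕ)) : ℝ) = ((m + 1 : ℕ) : ℝ) * ((m + 1 : ℕ) - 1) / 2 := by
    rw [Nat.cast_div]
    · push_cast; ring
    · exact (Nat.even_mul_pred_self (m + 1)).two_dvd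
    · norm_num
  set E : ℕ := (m + 1) * m / 2 with hE
  have hpos : 0 < (E : ℝ) - C := by
    rw [hdd]; linarith
  have h2 : Tendsto (fun k : ℕ => ((3 * k : ℕ) : ℝ) ^ ((E : ℝ) - C)) atTop atTop :=
    (tendsto_rpow_atTop hpos).comp (tendsto_natCast_atTop_atTop.comp h3)
  have h4 := h2.eventually (eventually_gt_atTop (2 ^ (m + 1) * K))
  obtain ⟨k, h5, h6, h7, h8⟩ := (h1.and (h4.and ((lower_real m).and (eventually_gt_atTop 0)))).exists
  have hk1 : (0 : ℝ) < ((3 * k : ℕ) : ℝ) := by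
    have : 0 < 3 * k := by omega
    exact_mod_cast this
  set B : ℝ := ((3 : ℝ) ^ ((1 : ℝ) / 3)) ^ ((3 * k) ^ (m + 1)) with hB
  have hB0 : 0 < B := by positivity
  have h9 : (t (3 * k) (m + 1) : ℝ) ≤ K * (((3 * k : ℕ) : ℝ) ^ C * B) := by
    have h10 := h5
    rw [Real.norm_of_nonneg (by positivity), Real.norm_of_nonneg (by positivity)] at h10
    exact h10
  have h11 : (1 / 2 ^ (m + 1) : ℝ) * ((3 * k : ℕ) : ℝ) ^ E * B ≤ K * (((3 * k : ℕ) : ℝ) ^ C * B) :=
    h7.trans h9
  have h12 : ((3 * k : ℕ) : ℝ) ^ E ≤ 2 ^ (m + 1) * K * ((3 * k : ℕ) : ℝ) ^ C := by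
    have h13 : (((3 * k : ℕ) : ℝ) ^ E) * B ≤ (2 ^ (m + 1) * K * ((3 * k : ℕ) : ℝ) ^ C) * B := by
      calc (((3 * k : ℕ) : ℝ) ^ E) * B = 2 ^ (m + 1) * ((1 / 2 ^ (m + 1) : ℝ) * ((3 * k : ℕ) : ℝ) ^ E * B) := by
            field_simp
        _ ≤ 2 ^ (m + 1) * (K * (((3 * k : ℕ) : ℝ) ^ C * B)) :=
            mul_le_mul_of_nonneg_left h11 (by positivity)
        _ = _ := by ring
    exact le_of_mul_le_mul_right h13 hB0
  have h14 : ((3 * k : ℕ) : ℝ) ^ ((E : ℝ) - C) ≤ 2 ^ (m + 1) * K := by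
    rw [Real.rpow_sub hk1, Real.rpow_natCast, div_le_iff₀ (Real.rpow_pos_of_pos hk1 C)]
    exact h12
  linarith

end Pool.Agent.Results.MP_13da68_co.ExponentLower
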